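import Mathlib

/-! # Scaling a basis of a number field by an integer: parameters, discriminant, counting function -/

set_option autoImplicit false

namespace Pool.Agent.K3h2.LA

open NumberField

theorem den_mul_le (q : ℚ) (F : ℕ) : ((F : ℚ) * q).den ≤ q.den := by
  have h := Rat.mul_den_dvd (F : ℚ) q
  rw [Rat.den_natCast, one_mul] at h
  exact Nat.le_of_dvd q.den_pos h

theorem abs_num (q : ℚ) : (q.num.natAbs : ℚ) = |q| * q.den := by
  have h : q * q.den = q.num := Rat.mul_den_eq_num q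
  rw [Nat.cast_natAbs, Int.cast_abs, ← h, abs_mul]
  congr 1
  exact abs_of_nonneg (Nat.cast_nonneg _)

theorem num_mul_le (q : ℚ) (F : ℕ) : ((F : ℚ) * q).num.natAbs ≤ F * q.num.natAbs := by
  have h1 := abs_num ((F : ℚ) * q)
  have h2 := abs_num q
  have h3 : ((((F : ℚ) * q).num.natAbs : ℕ) : ℚ) ≤ ((F * q.num.natAbs : ℕ) : ℚ) := by
    rw [h1, abs_mul, abs_of_nonneg (Nat.cast_nonneg F : (0 : ℚ) ≤ F), Nat.cast_mul, h2, mul_assoc]
    refine mul_le_mul_of_nonneg_left ?_ (Nat.cast_nonneg _)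
    refine mul_le_mul_of_nonneg_left ?_ (abs_nonneg _)
    exact_mod_cast den_mul_le q F
  exact_mod_cast h3

theorem den_le_mul (q : ℚ) (F : ℕ) (hF : 0 < F) : q.den ≤ F * ((F : ℚ) * q).den := by
  have hF0 : (F : ℚ) ≠ 0 := by exact_mod_cast hF.ne'
  have h := Rat.mul_den_dvd ((F : ℚ)⁻¹) ((F : ℚ) * q)
  rw [← mul_assoc, inv_mul_cancel₀ hF0, one_mul] at h
  have h2 : ((F : ℚ)⁻¹).den = F := by
    rw [Rat.inv_natCast_den_of_pos hF]
  rw [h2] at h
  exact Nat.le_of_dvd (Nat.mul_pos hF (Rat.den_pos _)) h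

theorem num_le_mul (q : ℚ) (F : ℕ) (hF : 0 < F) : q.num.natAbs ≤ F * ((F : ℚ) * q).num.natAbs := by
  have h1 := abs_num ((F : ℚ) * q)
  have h2 := abs_num q
  have hF1 : (0 : ℚ) ≤ F := Nat.cast_nonneg F
  have h4 := den_le_mul q F hF
  have h3 : ((q.num.natAbs : ℕ) : ℚ) ≤ ((F * ((F : ℚ) * q).num.natAbs : ℕ) : ℚ) := by
    rw [Nat.cast_mul, h1, abs_mul, abs_of_nonneg hF1, h2]
    have h5 : (q.den : ℚ) ≤ F * ((F : ℚ) * q).den := by exact_mod_cast h4
    have hF2 : (1 : ℚ) ≤ F := by exact_mod_cast hF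
    have h6 : (0 : ℚ) ≤ |q| := abs_nonneg _
    have h7 : (0 : ℚ) ≤ (((F : ℚ) * q).den : ℚ) := Nat.cast_nonneg _
    calc |q| * (q.den : ℚ) ≤ |q| * (F * ((F : ℚ) * q).den) := mul_le_mul_of_nonneg_left h5 h6
      _ = 1 * (F * |q| * ((F : ℚ) * q).den) := by ring
      _ ≤ F * (F * |q| * ((F : ℚ) * q).den) := by
          refine mul_le_mul_of_nonneg_right hF2 ?_
          positivity
  exact_mod_cast h3

/-- the maximum of the absolute values of the numerators and denominators of the `z i` -/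
def sz {ι : Type} [Fintype ι] (z : ι → ℚ) : ℕ :=
  Finset.univ.sup (fun i => max (z i).num.natAbs (z i).den)

theorem sz_mul_le {ι : Type} [Fintype ι] (z z' : ι → ℚ) (F : ι → ℕ) (N : ℕ)
    (hF : ∀ i, F i ≤ N) (hN : 1 ≤ N) (h : ∀ i, z' i = F i * z i) : sz z' ≤ N * sz z := by
  unfold sz
  refine Finset.sup_le fun i _ => ?_
  have h0 : max (z i).num.natAbs (z i).den ≤
      Finset.univ.sup (fun i => max (z i).num.natAbs (z i).den) :=
    Finset.le_sup (f := fun i => max (z i).num.natAbs (z i).den) (Finset.mem_univ i)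
  rw [h i]
  refine max_le ?_ ?_
  · calc ((F i : ℚ) * z i).num.natAbs ≤ F i * (z i).num.natAbs := num_mul_le _ _
      _ ≤ N * _ := Nat.mul_le_mul (hF i) ((le_max_left _ _).trans h0)
  · calc ((F i : ℚ) * z i).den ≤ (z i).den := den_mul_le _ _
      _ ≤ 1 * (z i).den := by rw [one_mul]
      _ ≤ N * _ := Nat.mul_le_mul hN ((le_max_right _ _).trans h0)

theorem sz_le_mul {ι : Type} [Fintype ι] (z z' : ι → ℚ) (F : ι → ℕ) (N : ℕ)
    (hF0 : ∀ i, 0 < F i) (hF : ∀ i, F i ≤ N) (h : ∀ i, z' i = F i * z i) : sz z ≤ N * sz z' := by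
  unfold sz
  refine Finset.sup_le fun i _ => ?_
  have h0 : max (z' i).num.natAbs (z' i).den ≤
      Finset.univ.sup (fun i => max (z' i).num.natAbs (z' i).den) :=
    Finset.le_sup (f := fun i => max (z' i).num.natAbs (z' i).den) (Finset.mem_univ i)
  rw [h i] at h0
  refine max_le ?_ ?_
  · calc (z i).num.natAbs ≤ F i * ((F i : ℚ) * z i).num.natAbs := num_le_mul _ _ (hF0 i)
      _ ≤ N * _ := Nat.mul_le_mul (hF i) ((le_max_left _ _).trans h0)
  · calc (z i).den ≤ F i * ((F i : ℚ) * z i).den := den_le_mul _ _ (hF0 i)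
      _ ≤ N * _ := Nat.mul_le_mul (hF i) ((le_max_right _ _).trans h0)

theorem one_le_sz {ι : Type} [Fintype ι] [Nonempty ι] (z : ι → ℚ) : 1 ≤ sz z := by
  obtain ⟨i⟩ := ‹Nonempty ι›
  calc 1 ≤ (z i).den := (z i).den_pos
    _ ≤ max (z i).num.natAbs (z i).den := le_max_right _ _
    _ ≤ _ := Finset.le_sup (f := fun i => max (z i).num.natAbs (z i).den) (Finset.mem_univ i)

section basis
variable {K : Type} [Field K] [NumberField K] {n : ℕ}

/-- the basis `D ω` -/
noncomputable def scale (ω : Module.Basis (Fin n) ℚ K) (D : ℕ) (hD : 0 < D) :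
    Module.Basis (Fin n) ℚ K :=
  ω.unitsSMul fun _ => Units.mk0 (D : ℚ) (by exact_mod_cast hD.ne')

theorem scale_apply (ω : Module.Basis (Fin n) ℚ K) (D : ℕ) (hD : 0 < D) (i : Fin n) :
    scale ω D hD i = (D : K) * ω i := by
  unfold scale
  rw [Module.Basis.unitsSMul_apply]
  change (D : ℚ) • ω i = _
  rw [Algebra.smul_def, map_natCast]

theorem scale_repr (ω : Module.Basis (Fin n) ℚ K) (D : ℕ) (hD : 0 < D) (y : K) (i : Fin n) :
    (scale ω D hD).repr y i = (D : ℚ)⁻¹ * ω.repr y i := by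
  unfold scale
  rw [Module.Basis.repr_unitsSMul]
  rfl

theorem repr_natMul (ω : Module.Basis (Fin n) ℚ K) (N : ℕ) (y : K) (i : Fin n) :
    ω.repr ((N : K) * y) i = N * ω.repr y i := by
  have h : (N : K) * y = (N : ℚ) • y := by rw [Algebra.smul_def, map_natCast]
  rw [h, map_smul, Finsupp.smul_apply, smul_eq_mul]

theorem scale_repr_mul (ω : Module.Basis (Fin n) ℚ K) (D : ℕ) (hD : 0 < D) (N : ℕ) (y : K)
    (i : Fin n) : (scale ω D hD).repr ((D : K) * ((N : K) * y)) i = N * ω.repr y i := by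
  have hD0 : (D : ℚ) ≠ 0 := by exact_mod_cast hD.ne'
  rw [scale_repr, repr_natMul, repr_natMul]
  field_simp

theorem scale_repr_struct (ω : Module.Basis (Fin n) ℚ K) (D : ℕ) (hD : 0 < D) (i j k : Fin n) :
    (scale ω D hD).repr (scale ω D hD i * scale ω D hD j) k = D * ω.repr (ω i * ω j) k := by
  rw [scale_apply, scale_apply]
  have h : (D : K) * ω i * ((D : K) * ω j) = (D : K) * ((D : K) * (ω i * ω j)) := by ring
  rw [h, scale_repr_mul]

theorem scale_discr (ω : Module.Basis (Fin n) ℚ K) (D : ℕ) (hD : 0 < D) :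
    Algebra.discr ℚ (scale ω D hD) = (D : ℚ) ^ (2 * n) * Algebra.discr ℚ ω := by
  have h : (scale ω D hD : Fin n → K) = fun i => (D : ℚ) • ω i := by
    funext i
    rw [scale_apply, Algebra.smul_def, map_natCast]
  rw [h, Algebra.discr_def, Algebra.discr_def]
  have h1 : Algebra.traceMatrix ℚ (fun i => (D : ℚ) • ω i) =
      ((D : ℚ) ^ 2) • Algebra.traceMatrix ℚ ω := by
    ext i j
    rw [Matrix.smul_apply, Algebra.traceMatrix_apply, Algebra.traceMatrix_apply,
      Algebra.traceForm_apply, Algebra.traceForm_apply, smul_mul_smul_comm, map_smul, smul_eq_mul,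
      smul_eq_mul, pow_two]
  rw [h1, Matrix.det_smul, Fintype.card_fin, ← pow_mul]

end basis

end Pool.Agent.K3h2.LA
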