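import Mathlib
import Pool.Agent.Y724.T4.ABK
import Pool.Agent.TH551.SU.Ht
import Pool.Agent.K3h2.LA.Scale

/-! # Counting functions and discriminants of scaled data; units of a finitely generated group -/

set_option autoImplicit false

namespace Pool.Agent.K3h2.LA

open NumberField Pool.Agent.Y724.T4

section cnt
variable {K : Type} [Field K] [NumberField K]

theorem place_nat_le (v : FinitePlace K) (N : ℕ) : v (N : K) ≤ 1 := by
  have h := int_place_le v (N : ℤ)
  simpa using h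

/-- the sum of `- log |N|_v` over a set of finite places is at most `[K : ℚ] log N` -/
theorem sum_nat_le (A : Set (FinitePlace K)) (N : ℕ) (hN : 0 < N) :
    -∑ᶠ v ∈ A, Real.log (v (N : K)) ≤ Module.finrank ℚ K * Real.log N := by
  classical
  have hN0 : (N : K) ≠ 0 := by exact_mod_cast hN.ne'
  have hfin := fin_ne_one hN0
  have hsup : {v : FinitePlace K | Real.log (v (N : K)) ≠ 0}.Finite := by
    refine hfin.subset fun v hv h => hv ?_
    change v (N : K) = 1 at h
    rw [h, Real.log_one]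
  have h1 := finsum_compl_add A (fun v : FinitePlace K => Real.log (v (N : K))) hsup
  have h2 := prod_formula hN0
  have h3 : ∑ᶠ v ∈ Aᶜ, Real.log (v (N : K)) ≤ 0 := by
    refine finsum_mem_induction (fun x : ℝ => x ≤ 0) le_rfl (fun x y hx hy => add_nonpos hx hy)
      fun v hv => ?_
    exact Real.log_nonpos (apply_nonneg v _) (place_nat_le v N)
  have h4 : ∑ v : InfinitePlace K, v.mult * Real.log (v (N : K)) =
      Module.finrank ℚ K * Real.log N := by
    have h5 : ∀ v : InfinitePlace K, v (N : K) = N := fun v => by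
      have h6 : v (N : K) = ‖v.embedding (N : K)‖ := (InfinitePlace.norm_embedding_eq v _).symm
      rw [h6, map_natCast]
      simp
    rw [Finset.sum_congr rfl fun v _ => by rw [h5 v], ← Finset.sum_mul]
    congr 1
    have := InfinitePlace.sum_mult_eq (K := K)
    exact_mod_cast this
  linarith

theorem counting_natMul (S : Finset ℕ) (N : ℕ) (hN : 0 < N) (ρ : K) (hρ : ρ ≠ 0) :
    R7.counting S ((N : K) * ρ) ≤ R7.counting S ρ + Real.log N := by
  classical
  have hN0 : (N : K) ≠ 0 := by exact_mod_cast hN.ne'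
  have hn0 : 0 < Module.finrank ℚ K := Module.finrank_pos
  have hnR : (0 : ℝ) < Module.finrank ℚ K := by exact_mod_cast hn0
  have hsup : ∀ c : K, c ≠ 0 → ∀ A : Set (FinitePlace K),
      (A ∩ Function.support fun v : FinitePlace K => Real.log (v c)).Finite := by
    intro c hc A
    refine (fin_ne_one hc).subset fun v hv h => hv.2 ?_
    change v c = 1 at h
    change Real.log (v c) = 0
    rw [h, Real.log_one]
  have h1 : ∑ᶠ v ∈ (R7.placesOver K S)ᶜ, Real.log (v ((N : K) * ρ)) =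
      ∑ᶠ v ∈ (R7.placesOver K S)ᶜ, Real.log (v (N : K)) +
        ∑ᶠ v ∈ (R7.placesOver K S)ᶜ, Real.log (v ρ) := by
    rw [← finsum_mem_add_distrib' (hsup _ hN0 _) (hsup _ hρ _)]
    refine finsum_mem_congr rfl fun v _ => ?_
    rw [map_mul]
    exact Real.log_mul (v.1.pos hN0).ne' (v.1.pos hρ).ne'
  have h2 := sum_nat_le (R7.placesOver K S)ᶜ N hN
  unfold R7.counting
  rw [h1, div_add' _ _ _ hnR.ne']
  refine div_le_div_of_nonneg_right ?_ hnR.le
  linarith

theorem counting_mono {S S' : Finset ℕ} (hSS : S ⊆ S') (ρ : K) (hρ : ρ ≠ 0)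
    (h1 : ∀ v ∉ Over K S, v ρ ≤ 1) : R7.counting S' ρ ≤ R7.counting S ρ := by
  have h := finsum_compl_le (F := K) hSS ρ hρ h1
  unfold R7.counting
  refine div_le_div_of_nonneg_right ?_ (Nat.cast_nonneg _)
  have e : ∀ S : Finset ℕ, R7.placesOver K S = Over K S := fun S => rfl
  rw [e, e]
  linarith

theorem logDiscBasis_mono {n : ℕ} {S S' : Finset ℕ} (hSS : S ⊆ S') (hS' : ∀ p ∈ S', p.Prime)
    (ω : Module.Basis (Fin n) ℚ K)
    (h : ∀ i j l p, p.Prime → p ∉ S → padicNorm p (ω.repr (ω i * ω j) l) ≤ 1) :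
    R7.logDiscBasis S' ω ≤ R7.logDiscBasis S ω := by
  have h3 := discr_mono ω hSS hS' h
  unfold R7.logDiscBasis
  refine div_le_div_of_nonneg_right ?_ (Nat.cast_nonneg _)
  linarith

theorem logDiscBasis_scale {n : ℕ} (S : Finset ℕ) (hS : ∀ p ∈ S, p.Prime)
    (ω : Module.Basis (Fin n) ℚ K) (D : ℕ) (hD : 0 < D) :
    R7.logDiscBasis S (scale ω D hD) ≤ R7.logDiscBasis S ω + 2 * Real.log D := by
  have hnK : Module.finrank ℚ K = n := by
    rw [Module.finrank_eq_card_basis ω, Fintype.card_fin]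
  have hn0 : 0 < Module.finrank ℚ K := Module.finrank_pos
  have hnR : (0 : ℝ) < Module.finrank ℚ K := by exact_mod_cast hn0
  have hD0 : (0 : ℝ) < D := by exact_mod_cast hD
  have hd : Algebra.discr ℚ ω ≠ 0 := Algebra.discr_not_zero_of_basis ℚ ω
  have hdR : |((Algebra.discr ℚ ω : ℚ) : ℝ)| ≠ 0 := by
    rw [Ne, abs_eq_zero]
    exact_mod_cast hd
  unfold R7.logDiscBasis
  rw [scale_discr, div_add' _ _ _ hnR.ne']
  refine div_le_div_of_nonneg_right ?_ hnR.le
  have h1 : Real.log |(((D : ℚ) ^ (2 * n) * Algebra.discr ℚ ω : ℚ) : ℝ)| =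
      2 * n * Real.log D + Real.log |((Algebra.discr ℚ ω : ℚ) : ℝ)| := by
    push_cast
    rw [abs_mul, Real.log_mul (by positivity) hdR, abs_of_nonneg (by positivity), Real.log_pow]
    push_cast
    ring
  have h2 : ∀ p ∈ S, Real.log ((padicNorm p ((D : ℚ) ^ (2 * n) * Algebra.discr ℚ ω) : ℚ) : ℝ) ≤
      Real.log ((padicNorm p (Algebra.discr ℚ ω) : ℚ) : ℝ) := by
    intro p hp
    have : Fact p.Prime := ⟨hS p hp⟩
    have hD1 : (D : ℚ) ^ (2 * n) ≠ 0 := by positivity
    have h3 : padicNorm p ((D : ℚ) ^ (2 * n) * Algebra.discr ℚ ω) ≤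
        padicNorm p (Algebra.discr ℚ ω) := by
      rw [padicNorm.mul]
      have h4 : padicNorm p ((D : ℚ) ^ (2 * n)) ≤ 1 := by
        have := padicNorm.of_int (p := p) ((D : ℤ) ^ (2 * n))
        simpa using this
      exact mul_le_of_le_one_left (padicNorm.nonneg _) h4
    have h5 : 0 < padicNorm p ((D : ℚ) ^ (2 * n) * Algebra.discr ℚ ω) :=
      lt_of_le_of_ne (padicNorm.nonneg _) (Ne.symm (padicNorm.nonzero (mul_ne_zero hD1 hd)))
    exact Real.log_le_log (by exact_mod_cast h5) (by exact_mod_cast h3)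
  have h6 := Finset.sum_le_sum h2
  rw [h1, hnK]
  linarith

end cnt

/-- finitely many generated units are `S'`-units -/
theorem exists_primes (S : Finset ℕ) (hS : ∀ p ∈ S, p.Prime) (Γ : Subgroup ℚˣ) (hΓ : Γ.FG) :
    ∃ S' : Finset ℕ, S ⊆ S' ∧ (∀ p ∈ S', p.Prime) ∧ ∀ g ∈ Γ, R7.IsSUnit S' ((g : ℚˣ) : ℚ) := by
  classical
  obtain ⟨s, b, hb, hbi, h⟩ := Pool.Agent.TH551.SU.Ht.exists_base Γ hΓ
  refine ⟨S ∪ Finset.univ.image b, Finset.subset_union_left, ?_, ?_⟩
  · intro p hp
    rcases Finset.mem_union.1 hp with h1 | h1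
    · exact hS p h1
    · obtain ⟨v, _, rfl⟩ := Finset.mem_image.1 h1
      exact hb v
  · intro g hg
    obtain ⟨σ, e, hσ, he⟩ := h g hg
    refine ⟨σ, fun p => if hp : ∃ v, b v = p then e hp.choose else 0, hσ, ?_⟩
    rw [he]
    congr 1
    have h2 : ∀ v, (if hp : ∃ w, b w = b v then e hp.choose else 0) = e v := by
      intro v
      have hv : ∃ w, b w = b v := ⟨v, rfl⟩
      rw [dif_pos hv]
      congr 1
      exact hbi hv.choose_spec
    have h3 : ∏ v, (b v : ℚ) ^ e v = ∏ p ∈ Finset.univ.image b,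
        (p : ℚ) ^ (if hp : ∃ v, b v = p then e hp.choose else 0) := by
      rw [Finset.prod_image fun x _ y _ hxy => hbi hxy]
      exact Finset.prod_congr rfl fun v _ => by rw [h2 v]
    rw [h3]
    refine Finset.prod_subset Finset.subset_union_right fun p _ hp => ?_
    have hp' : ¬ ∃ v, b v = p := by
      rintro ⟨v, rfl⟩
      exact hp (Finset.mem_image_of_mem b (Finset.mem_univ v))
    rw [dif_neg hp', zpow_zero]

/-- the group generated by `- 1` and the primes in `S` -/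
theorem exists_gamma (S : Finset ℕ) (hS : ∀ p ∈ S, p.Prime) :
    ∃ Γ : Subgroup ℚˣ, Γ.FG ∧ (∀ u : ℚ, R7.IsSUnit S u → ∃ g ∈ Γ, ((g : ℚˣ) : ℚ) = u) := by
  classical
  let f : ℕ → ℚˣ := fun p => if hp : (p : ℚ) = 0 then 1 else Units.mk0 (p : ℚ) hp
  have hf : ∀ p ∈ S, ((f p : ℚˣ) : ℚ) = p := by
    intro p hp
    have h0 : (p : ℚ) ≠ 0 := by exact_mod_cast (hS p hp).ne_zero
    change (((if hp : (p : ℚ) = 0 then 1 else Units.mk0 (p : ℚ) hp : ℚˣ)) : ℚ) = p
    rw [dif_neg h0]
    rfl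
  refine ⟨Subgroup.closure (insert (-1) (S.image f : Set ℚˣ)), ?_, ?_⟩
  · rw [Subgroup.fg_iff]
    exact ⟨_, rfl, (Set.toFinite _).insert _⟩
  · rintro u ⟨σ, e, hσ, rfl⟩
    have h1 : ∀ p ∈ S, f p ∈ Subgroup.closure (insert (-1) (S.image f : Set ℚˣ)) := fun p hp =>
      Subgroup.subset_closure (Set.mem_insert_of_mem _ (by
        exact_mod_cast Finset.mem_image_of_mem f hp))
    have h2 : ∏ p ∈ S, f p ^ e p ∈ Subgroup.closure (insert (-1) (S.image f : Set ℚˣ)) :=
      Subgroup.prod_mem _ fun p hp => Subgroup.zpow_mem _ (h1 p hp) _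
    have h3 : ((∏ p ∈ S, f p ^ e p : ℚˣ) : ℚ) = ∏ p ∈ S, (p : ℚ) ^ e p := by
      rw [Units.coe_prod]
      exact Finset.prod_congr rfl fun p hp => by rw [Units.val_zpow_eq_zpow_val, hf p hp]
    rcases hσ with rfl | rfl
    · exact ⟨_, h2, by rw [h3]; simp⟩
    · refine ⟨(-1) * ∏ p ∈ S, f p ^ e p, Subgroup.mul_mem _
        (Subgroup.subset_closure (Set.mem_insert _ _)) h2, ?_⟩
      rw [Units.val_mul, h3]
      simp

end Pool.Agent.K3h2.LA
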