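import Mathlib
import Pool.Agent.K3h2.LA.Cnt
import Pool.Agent.R343.LUF

/-! # The abc inequality for the numbers with compressible coordinates in number fields -/

set_option autoImplicit false

namespace Pool.Agent.K3h2.LA

open NumberField Pool.Agent.Y724.T4 Pool.Agent.R343.LT

/-- the indices of the parameters -/
abbrev Ix (n : ℕ) : Type :=
  (Fin n × Fin n × Fin n) ⊕ ((Fin 3 ⊕ (Fin 3 × Fin 3) ⊕ Unit) × Fin n)

/-- the additional exponent of `D` -/
def ex (m n : ℕ) : Ix n → ℕ :=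
  Sum.elim (fun _ => 0) (fun s => Sum.elim (fun _ => 0) (Sum.elim (fun _ => 2 * m - 2)
    (fun _ => 0)) s.1)

theorem ex_le (m n : ℕ) (s : Ix n) : ex m n s ≤ 2 * m - 2 := by
  rcases s with s | ⟨s | s | s, k⟩
  · exact Nat.zero_le _
  · exact Nat.zero_le _
  · exact le_rfl
  · exact Nat.zero_le _

section field
variable {K : Type} [Field K] [NumberField K] {n : ℕ}

theorem params_scale (ω : Module.Basis (Fin n) ℚ K) (D : ℕ) (hD : 0 < D) (m : ℕ) (hm : 1 ≤ m)
    (a : Fin 3 → K) (t : Fin 3 → Fin 3 → K) (ρ : K) (s : Ix n) :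
    R7.params (scale ω D hD) (data3 (fun i => (D : K) * ((D : K) * a i))
      (fun i j => (D : K) * (((D ^ (2 * m - 1) : ℕ) : K) * t i j)) ((D : K) * ((D : K) * ρ))) s =
      (((D ^ ex m n s : ℕ) : ℤ) : ℚ) * (D * R7.params ω (data3 a t ρ) s) := by
  rcases s with ⟨i, j, k⟩ | ⟨i | ⟨i, j⟩ | u, k⟩
  · change (scale ω D hD).repr (scale ω D hD i * scale ω D hD j) k = (((D ^ 0 : ℕ) : ℤ) : ℚ) *
      (D * ω.repr (ω i * ω j) k)
    rw [scale_repr_struct]
    simp
  · change (scale ω D hD).repr ((D : K) * ((D : K) * a i)) k = (((D ^ 0 : ℕ) : ℤ) : ℚ) *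
      (D * ω.repr (a i) k)
    rw [scale_repr_mul]
    simp
  · change (scale ω D hD).repr ((D : K) * (((D ^ (2 * m - 1) : ℕ) : K) * t i j)) k =
      (((D ^ (2 * m - 2) : ℕ) : ℤ) : ℚ) * (D * ω.repr (t i j) k)
    rw [scale_repr_mul]
    have h : 2 * m - 1 = 2 * m - 2 + 1 := by omega
    rw [h, pow_succ]
    push_cast
    ring
  · change (scale ω D hD).repr ((D : K) * ((D : K) * ρ)) k = (((D ^ 0 : ℕ) : ℤ) : ℚ) *
      (D * ω.repr ρ k)
    rw [scale_repr_mul]
    simp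

end field

/-- short sums from sums of few products -/
theorem short_of_sp {ι : Type} [Fintype ι] (S : Finset ℕ) (k : ℕ) (Γ : Subgroup ℚˣ)
    (hΓ : ∀ g ∈ Γ, R7.IsSUnit S ((g : ℚˣ) : ℚ)) (z y : ι → ℚ) (f : ι → ℤ) (M N B δ : ℝ)
    (hM : 0 ≤ M) (hy : ∀ i, SpR Γ k M (y i)) (hz : ∀ i, z i = f i * y i)
    (hf : ∀ i, |(f i : ℝ)| ≤ N) (hB : N * M ≤ B * (R7.size z : ℝ) ^ δ) :
    R7.IsShortSum S (Fintype.card (ι × Fin k)) B δ z := by
  classical
  choose u c hc hy' using hy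
  let e := (Fintype.equivFin (ι × Fin k)).symm
  refine ⟨fun j => ((u (e j).1 (e j).2 : ℚˣ) : ℚ),
    fun j i => if i = (e j).1 then f i * c i (e j).2 else 0, fun j => hΓ _ (u _ _).2, ?_, ?_⟩
  · intro j i
    refine le_trans ?_ hB
    by_cases h : i = (e j).1
    · simp only [h, if_true]
      push_cast
      rw [abs_mul]
      exact mul_le_mul (hf _) (hc _ _) (abs_nonneg _) ((abs_nonneg _).trans (hf (e j).1))
    · simp only [h, if_false]
      rw [Int.cast_zero, abs_zero]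
      exact mul_nonneg ((abs_nonneg _).trans (hf i)) hM
  · intro i
    rw [hz i, hy' i]
    have h1 : ∑ j, ((u (e j).1 (e j).2 : ℚˣ) : ℚ) *
        ((if i = (e j).1 then f i * c i (e j).2 else 0 : ℤ) : ℚ) =
        ∑ q : ι × Fin k, ((u q.1 q.2 : ℚˣ) : ℚ) *
          ((if i = q.1 then f i * c i q.2 else 0 : ℤ) : ℚ) :=
      Equiv.sum_comp e (fun q : ι × Fin k => ((u q.1 q.2 : ℚˣ) : ℚ) *
          ((if i = q.1 then f i * c i q.2 else 0 : ℤ) : ℚ))
    rw [h1, Fintype.sum_prod_type, Finset.sum_eq_single i]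
    · rw [Finset.mul_sum]
      refine Finset.sum_congr rfl fun j _ => ?_
      rw [if_pos rfl]
      push_cast
      ring
    · intro b _ hb
      refine Finset.sum_eq_zero fun j _ => ?_
      rw [if_neg (Ne.symm hb)]
      simp
    · intro h
      exact absurd (Finset.mem_univ i) h

/-- `q` is a sum of products of `S`-units and integers -/
def SInt (S : Finset ℕ) (q : ℚ) : Prop :=
  ∃ (l : ℕ) (u : Fin l → ℚ) (w : Fin l → ℤ), (∀ j, R7.IsSUnit S (u j)) ∧ q = ∑ j, u j * w j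

theorem SInt.short {S : Finset ℕ} {q : ℚ} (h : SInt S q) :
    ∃ (l : ℕ) (B : ℝ), R7.IsShortSum S l B 0 (fun _ : Unit => q) := by
  classical
  obtain ⟨l, u, w, hu, hq⟩ := h
  refine ⟨l, ∑ j, |(w j : ℝ)|, u, fun j _ => w j, hu, fun j _ => ?_, fun _ => hq⟩
  rw [Real.rpow_zero, mul_one]
  exact Finset.single_le_sum (f := fun j => |(w j : ℝ)|) (fun _ _ => abs_nonneg _)
    (Finset.mem_univ j)

theorem SInt.padic {S : Finset ℕ} (hS : ∀ p ∈ S, p.Prime) {q : ℚ} (h : SInt S q) (p : ℕ)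
    (hp : p.Prime) (hpS : p ∉ S) : padicNorm p q ≤ 1 := by
  obtain ⟨l, B, h⟩ := h.short
  exact short_int6 S hS h () p hp hpS

theorem SInt.place {K : Type} [Field K] [NumberField K] {S : Finset ℕ} {q : ℚ} (h : SInt S q)
    (v : FinitePlace K) (hv : v ∉ Over K S) : v ((q : ℚ) : K) ≤ 1 := by
  classical
  obtain ⟨l, B, u, m, h2, h3, h4⟩ := h.short
  set b0 : Fin S.card → ℕ := fun v => (S.equivFin.symm v : ℕ) with hb0
  have hb0S : ∀ v, b0 v ∈ S := fun v => (S.equivFin.symm v).2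
  have hu0 : ∀ u : ℚ, R7.IsSUnit S u → Pool.Agent.TH551.SU.IsSU b0 u := by
    rintro u ⟨σ, e, hσ, rfl⟩
    refine ⟨σ, fun v => e (b0 v), hσ, ?_⟩
    congr 1
    rw [← Finset.prod_coe_sort S (fun p => (p : ℚ) ^ e p),
      ← Equiv.prod_comp S.equivFin.symm]
  have hsh0 : ShortI b0 l B 0 (fun _ : Unit => q) := ⟨u, m, fun j => hu0 _ (h2 j), h3, h4⟩
  exact short_place_le b0 S hb0S hsh0 () v hv

/-- the estimate of the small quantities -/
theorem numeric {μ δ δ0 β H H' lM lD : ℝ} (hμ : 1 ≤ μ) (hδ : 0 < δ) (hδ1 : μ * δ ≤ 1 / 2)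
    (hδ2 : 2 * (μ * δ) ≤ δ0) (hβ : 0 ≤ β) (hH : 0 ≤ H) (hH' : 0 ≤ H') (hDM : lD ≤ lM)
    (hM : lM ≤ δ * (1 + H) + β) (hHH : H ≤ μ * lD + H') :
    μ * lM ≤ δ0 * H' + (1 + 2 * (μ * β)) ∧ μ * lD + H ≤ 2 * H + (μ * β + 1) := by
  have hμ0 : 0 ≤ μ := by linarith
  have h1 : μ * lM ≤ μ * δ * (1 + H) + μ * β := by
    have := mul_le_mul_of_nonneg_left hM hμ0
    linarith
  have h2 : μ * lD ≤ μ * lM := mul_le_mul_of_nonneg_left hDM hμ0
  have h3 : μ * δ * (1 + H) ≤ 1 / 2 * (1 + H) := mul_le_mul_of_nonneg_right hδ1 (by linarith)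
  have h4 : H ≤ 1 + 2 * (μ * β) + 2 * H' := by linarith
  have hμδ : 0 ≤ μ * δ := by positivity
  have h5 : μ * δ * (1 + H) ≤ μ * δ * (2 + 2 * (μ * β) + 2 * H') :=
    mul_le_mul_of_nonneg_left (by linarith) hμδ
  have h6 : μ * δ * (2 + 2 * (μ * β)) ≤ 1 / 2 * (2 + 2 * (μ * β)) :=
    mul_le_mul_of_nonneg_right hδ1 (by positivity)
  have h7 : 2 * (μ * δ) * H' ≤ δ0 * H' := mul_le_mul_of_nonneg_right hδ2 hH'
  refine ⟨?_, ?_⟩
  · nlinarith
  · linarith

/-- sums of products of an element of `Γ`, an integer of absolute value at most `M` and an integer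
which is, multiplied by `D`, a sum of `k` products -/
theorem SpR.mul_small {Γ Γ' : Subgroup ℚˣ} (hle : Γ ≤ Γ') {q k : ℕ} {M N : ℝ} {D : ℕ}
    (hM : 0 ≤ M) {y : ℚ} (g : Fin q → ℚˣ) (c w : Fin q → ℤ) (hg : ∀ i, g i ∈ Γ)
    (hc : ∀ i, |(c i : ℝ)| ≤ N) (hw : ∀ i, SpR Γ' k M (D * (w i : ℚ)))
    (hy : y = ∑ i, ((g i : ℚˣ) : ℚ) * (c i * w i)) : SpR Γ' (q * k) (N * M) (D * y) := by
  classical
  choose u d hd hu using hw
  let e : Fin (q * k) ≃ Fin q × Fin k := finProdFinEquiv.symm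
  refine ⟨fun j => ⟨g (e j).1, hle (hg _)⟩ * u (e j).1 (e j).2,
    fun j => c (e j).1 * d (e j).1 (e j).2, fun j => ?_, ?_⟩
  · push_cast
    rw [abs_mul]
    exact mul_le_mul (hc _) (hd _ _) (abs_nonneg _) ((abs_nonneg _).trans (hc (e j).1))
  · have h1 : ∑ j, (((⟨g (e j).1, hle (hg _)⟩ * u (e j).1 (e j).2 : Γ') : ℚˣ) : ℚ) *
        ((c (e j).1 * d (e j).1 (e j).2 : ℤ) : ℚ) =
        ∑ p : Fin q × Fin k, (((⟨g p.1, hle (hg _)⟩ * u p.1 p.2 : Γ') : ℚˣ) : ℚ) *
          ((c p.1 * d p.1 p.2 : ℤ) : ℚ) :=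
      Equiv.sum_comp e (fun p : Fin q × Fin k => (((⟨g p.1, hle (hg _)⟩ * u p.1 p.2 : Γ') : ℚˣ) : ℚ) *
          ((c p.1 * d p.1 p.2 : ℤ) : ℚ))
    rw [h1, Fintype.sum_prod_type, hy, Finset.mul_sum]
    refine Finset.sum_congr rfl fun i _ => ?_
    have h2 : (D : ℚ) * (((g i : ℚˣ) : ℚ) * (c i * w i)) =
        ((g i : ℚˣ) : ℚ) * c i * (D * w i) := by ring
    rw [h2, hu i, Finset.mul_sum]
    refine Finset.sum_congr rfl fun j _ => ?_
    push_cast
    ring

/-- `y` is a sum of `q` products `g c w`, `g ∈ Γ`, `c` an integer of absolute value at most `N` -/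
def Dec (Γ : Subgroup ℚˣ) {q : ℕ} (N : ℝ) (w : Fin q → ℤ) (y : ℚ) : Prop :=
  ∃ (g : Fin q → ℚˣ) (c : Fin q → ℤ), (∀ i, g i ∈ Γ) ∧ (∀ i, |(c i : ℝ)| ≤ N) ∧
    y = ∑ i, ((g i : ℚˣ) : ℚ) * (c i * w i)

/-- **The inequality**, for number fields of degree `n`. -/
theorem core_n (S : Finset ℕ) (hS : ∀ p ∈ S, p.Prime) (n m : ℕ) (hm : 1 ≤ m) (q : ℕ)
    (b : Fin q → ℕ) (hb : ∀ i, 2 ≤ b i) (z : ℕ) (B : ℤ) (hB : 0 ≤ B) (Γ : Subgroup ℚˣ)
    (hΓ : Γ.FG) (A M0 N0 ε : ℝ) (hM0 : 0 ≤ M0) (hε : 0 < ε) :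
    ∃ C : ℝ, ∀ (K : Type) [Field K] [NumberField K]
      (ω : Module.Basis (Fin n) ℚ K) (a : Fin 3 → K) (t : Fin 3 → Fin 3 → K) (ρ : K)
      (w : Ix n × Fin q → ℤ),
      (∀ i, a i ≠ 0) → a 0 + a 1 + a 2 = 0 → ρ ≠ 0 → (∀ i j, ρ ^ m * a j = a i * t i j) →
      (∀ s, SInt S (R7.params ω (data3 a t ρ) s)) →
      (∀ s, Dec Γ (N0 * Real.exp (Real.log (R7.size (R7.params ω (data3 a t ρ))) / max C 1))
        (fun i => w (s, i)) (R7.params ω (data3 a t ρ) s)) →
      (∀ s, LZWd (b s.2) z B (M0 * (1 + Real.log (R7.size (R7.params ω (data3 a t ρ))))) (w s)) →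
      Real.log (R7.size (R7.params ω (data3 a t ρ))) ≤ A * (R7.height a + 1) →
      R7.height a ≤ (1 + ε) * (R7.counting S ρ + R7.logDiscBasis S ω) + C := by
  classical
  let 𝒳 := (Ix n → ℚ) × (Ix n × Fin q → ℤ)
  let Φ : ℝ → 𝒳 → Prop := fun C P => ∀ (K : Type) [Field K] [NumberField K]
      (ω : Module.Basis (Fin n) ℚ K) (a : Fin 3 → K) (t : Fin 3 → Fin 3 → K) (ρ : K),
      R7.params ω (data3 a t ρ) = P.1 →
      (∀ i, a i ≠ 0) → a 0 + a 1 + a 2 = 0 → ρ ≠ 0 → (∀ i j, ρ ^ m * a j = a i * t i j) →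
      (∀ s, SInt S (P.1 s)) →
      (∀ s, Dec Γ (N0 * Real.exp (Real.log (R7.size P.1) / max C 1))
        (fun i => P.2 (s, i)) (P.1 s)) → Real.log (R7.size P.1) ≤ A * (R7.height a + 1) →
      R7.height a ≤ (1 + ε) * (R7.counting S ρ + R7.logDiscBasis S ω) + C
  have hmono : ∀ (C C' : ℝ) (P : 𝒳), C ≤ C' → Φ C P → Φ C' P := by
    intro C C' P hCC h K _ _ ω a t ρ h1 h2 h3 h4 h5 h6 h7 h8
    refine (h K ω a t ρ h1 h2 h3 h4 h5 h6 (fun s => ?_) h8).trans (by linarith)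
    obtain ⟨g, c, hg, hc, hy⟩ := h7 s
    refine ⟨g, c, hg, fun i => (hc i).trans ?_, hy⟩
    have hN0 : 0 ≤ N0 := by
      by_contra hcon
      push Not at hcon
      have h9 := (abs_nonneg _).trans (hc i)
      have h10 := mul_neg_of_neg_of_pos hcon
        (Real.exp_pos (Real.log (R7.size P.1) / max C' 1))
      linarith
    refine mul_le_mul_of_nonneg_left (Real.exp_le_exp.2 ?_) hN0
    exact div_le_div_of_nonneg_left (Real.log_natCast_nonneg _)
      (lt_of_lt_of_le one_pos (le_max_right _ _)) (max_le_max hCC le_rfl)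
  obtain ⟨C, _, hC⟩ := compTransferF (𝒳 := 𝒳) (𝒢 := Unit) (κ := Ix n × Fin q) 1 Γ hΓ
    (fun s _ => b s.2)
    (fun s _ => hb s.2) z B hB M0 hM0 Φ hmono (fun _ _ => True)
    (fun G G' => ⟨(), fun P hP => ⟨trivial, trivial⟩⟩)
    (fun P => Real.log (R7.size P.1)) (fun P => Real.log_natCast_nonneg _)
    (fun P s => (P.2 s : ℚ)) (by
    intro k Γ' hΓ' hle
    obtain ⟨S', hSS, hS', hΓS⟩ := exists_primes S hS Γ' hΓ'
    obtain ⟨β, hβ⟩ : ∃ β : ℝ, β = Real.log (B + 1) + Real.log (max N0 1) := ⟨_, rfl⟩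
    have hB1 : (1 : ℝ) ≤ B + 1 := by
      have : (0 : ℝ) ≤ B := by exact_mod_cast hB
      linarith
    have hβ0 : 0 ≤ β := by
      rw [hβ]
      exact add_nonneg (Real.log_nonneg hB1) (Real.log_nonneg (le_max_right _ _))
    obtain ⟨μ, hμ⟩ : ∃ μ : ℝ, μ = ((2 * m - 1 : ℕ) : ℝ) := ⟨_, rfl⟩
    have hμ1 : 1 ≤ μ := by
      rw [hμ]
      have : 1 ≤ 2 * m - 1 := by omega
      exact_mod_cast this
    have hμ0 : 0 < μ := by linarith
    obtain ⟨δ0, C0, hδ0, hC0, hcore⟩ := abk_core S' hS' n (Fintype.card (Ix n × Fin (q * k))) m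
      (2 * |A| + (μ * β + 1)) (Real.exp (1 + 2 * (μ * β))) (ε / 2) (by positivity)
    obtain ⟨η, hη⟩ : ∃ η : ℝ, η = ε / 2 / (1 + ε) := ⟨_, rfl⟩
    have hη0 : 0 < η := by
      rw [hη]
      positivity
    obtain ⟨δ, hδ⟩ : ∃ δ : ℝ, δ = min (1 / (2 * μ)) (min (δ0 / (2 * μ))
      (η / (4 * (1 + ε / 2) * (1 + |A|)))) := ⟨_, rfl⟩
    have hδ00 : 0 < δ := by
      rw [hδ]
      refine lt_min (by positivity) (lt_min (by positivity) (by positivity))
    have hδ1 : μ * δ ≤ 1 / 2 := by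
      have h1 : δ ≤ 1 / (2 * μ) := by
        rw [hδ]
        exact min_le_left _ _
      calc μ * δ ≤ μ * (1 / (2 * μ)) := mul_le_mul_of_nonneg_left h1 hμ0.le
        _ = 1 / 2 := by field_simp
    have hδ2 : 2 * (μ * δ) ≤ δ0 := by
      have h1 : δ ≤ δ0 / (2 * μ) := by
        rw [hδ]
        exact (min_le_right _ _).trans (min_le_left _ _)
      calc 2 * (μ * δ) ≤ 2 * (μ * (δ0 / (2 * μ))) := by
            refine mul_le_mul_of_nonneg_left (mul_le_mul_of_nonneg_left h1 hμ0.le) (by norm_num)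
        _ = δ0 := by field_simp
    have hδ3 : 4 * (1 + ε / 2) * (1 + |A|) * δ ≤ η := by
      have h1 : δ ≤ η / (4 * (1 + ε / 2) * (1 + |A|)) := by
        rw [hδ]
        exact (min_le_right _ _).trans (min_le_right _ _)
      have h2 : 0 < 4 * (1 + ε / 2) * (1 + |A|) := by positivity
      calc 4 * (1 + ε / 2) * (1 + |A|) * δ
          ≤ 4 * (1 + ε / 2) * (1 + |A|) * (η / (4 * (1 + ε / 2) * (1 + |A|))) :=
            mul_le_mul_of_nonneg_left h1 h2.le
        _ = η := by field_simp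
    refine ⟨δ / 2, by positivity, max (2 / δ) ((η + 4 * (1 + ε / 2) * β + C0) *
      ((1 + ε) / (1 + ε / 2))), (), ?_⟩
    rintro ⟨P, w⟩ M1 D hM11 hD0 hDM1 hlM1 hsp1 - K _ _ ω a t ρ hP ha hsum hρ ht hint hdec hlog
    simp only at hP hint hdec hlog hlM1 hsp1
    -- the small coefficients
    obtain ⟨C2, hC2⟩ : ∃ C2 : ℝ, C2 = max (max (2 / δ) ((η + 4 * (1 + ε / 2) * β + C0) *
      ((1 + ε) / (1 + ε / 2)))) 1 := ⟨_, rfl⟩
    rw [← hC2] at hdec
    have hC21 : 2 / δ ≤ C2 := by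
      rw [hC2]
      exact (le_max_left _ _).trans (le_max_left _ _)
    have hC20 : 0 < C2 := lt_of_lt_of_le (by positivity) hC21
    obtain ⟨N1, hN1⟩ : ∃ N1 : ℝ, N1 = max N0 1 * Real.exp (Real.log (R7.size P) / C2) := ⟨_, rfl⟩
    have hlsz : 0 ≤ Real.log (R7.size P) := Real.log_natCast_nonneg _
    have hN11 : 1 ≤ N1 := by
      rw [hN1]
      have h1 : (1 : ℝ) ≤ max N0 1 := le_max_right _ _
      have h2 : 1 ≤ Real.exp (Real.log (R7.size P) / C2) :=
        Real.one_le_exp (div_nonneg hlsz hC20.le)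
      nlinarith
    obtain ⟨M, hM⟩ : ∃ M : ℝ, M = N1 * M1 := ⟨_, rfl⟩
    have hM1M : M1 ≤ M := by
      rw [hM]
      nlinarith
    have hM1 : 1 ≤ M := hM11.trans hM1M
    have hDM : (D : ℝ) ≤ M := hDM1.trans hM1M
    have hsp : ∀ s, SpR Γ' (q * k) M (D * P s) := by
      intro s
      obtain ⟨g, c, hg, hc, hy⟩ := hdec s
      rw [hM]
      refine SpR.mul_small hle (by linarith) g c (fun i => w (s, i)) hg
        (fun i => (hc i).trans ?_) (fun i => hsp1 (s, i)) hy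
      rw [hN1]
      exact mul_le_mul_of_nonneg_right (le_max_left _ _) (Real.exp_pos _).le
    have hlM : Real.log M ≤ δ * (1 + Real.log (R7.size P)) + β := by
      have h1 : Real.log M = Real.log (max N0 1) + Real.log (R7.size P) / C2 + Real.log M1 := by
        rw [hM, hN1, Real.log_mul (by positivity) (by linarith), Real.log_mul (by positivity)
          (Real.exp_pos _).ne', Real.log_exp]
      have h2 : Real.log (R7.size P) / C2 ≤ δ / 2 * Real.log (R7.size P) := by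
        rw [div_le_iff₀ hC20]
        have h3 : 1 ≤ δ / 2 * C2 := by
          have h4 := mul_le_mul_of_nonneg_left hC21 (by positivity : (0 : ℝ) ≤ δ / 2)
          have h5 : δ / 2 * (2 / δ) = 1 := by field_simp
          linarith
        nlinarith
      rw [h1, hβ]
      nlinarith
    have hM0' : (0 : ℝ) < M := by linarith
    have hD1 : (1 : ℝ) ≤ D := by exact_mod_cast hD0
    have hDR : (0 : ℝ) < D := by linarith
    have hDK : (D : K) ≠ 0 := by exact_mod_cast hD0.ne'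
    have hnK : Module.finrank ℚ K = n := by
      rw [Module.finrank_eq_card_basis ω, Fintype.card_fin]
    have hn0 : 0 < n := by
      rw [← hnK]
      exact Module.finrank_pos
    have hne : Nonempty (Ix n) := ⟨Sum.inl (⟨0, hn0⟩, ⟨0, hn0⟩, ⟨0, hn0⟩)⟩
    -- the scaled data
    obtain ⟨a', ha'⟩ : ∃ a' : Fin 3 → K, a' = fun i => (D : K) * ((D : K) * a i) := ⟨_, rfl⟩
    obtain ⟨t', ht'⟩ : ∃ t' : Fin 3 → Fin 3 → K, t' = fun i j =>
      (D : K) * (((D ^ (2 * m - 1) : ℕ) : K) * t i j) := ⟨_, rfl⟩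
    obtain ⟨ρ', hρ'⟩ : ∃ ρ' : K, ρ' = (D : K) * ((D : K) * ρ) := ⟨_, rfl⟩
    obtain ⟨ω', hω'⟩ : ∃ ω' : Module.Basis (Fin n) ℚ K, ω' = scale ω D hD0 := ⟨_, rfl⟩
    obtain ⟨P', hP'⟩ : ∃ P' : Ix n → ℚ, P' = R7.params ω' (data3 a' t' ρ') := ⟨_, rfl⟩
    have hPP : ∀ s, P' s = (((D ^ ex m n s : ℕ) : ℤ) : ℚ) * (D * P s) := by
      intro s
      rw [hP', hω', ha', ht', hρ', ← hP]
      exact params_scale ω D hD0 m hm a t ρ s
    -- sizes
    have hs1 : R7.size P ≤ D ^ (2 * m - 1) * R7.size P' := by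
      refine sz_le_mul P P' (fun s => D ^ (ex m n s + 1)) (D ^ (2 * m - 1))
        (fun s => pow_pos hD0 _) (fun s => Nat.pow_le_pow_right hD0 ?_) (fun s => ?_)
      · have := ex_le m n s
        omega
      · rw [hPP s]
        push_cast
        rw [pow_succ]
        ring
    have hs2 : R7.size P' ≤ D ^ (2 * m - 1) * R7.size P := by
      refine sz_mul_le P P' (fun s => D ^ (ex m n s + 1)) (D ^ (2 * m - 1))
        (fun s => Nat.pow_le_pow_right hD0 ?_) (Nat.one_le_pow _ _ hD0) (fun s => ?_)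
      · have := ex_le m n s
        omega
      · rw [hPP s]
        push_cast
        rw [pow_succ]
        ring
    obtain ⟨H, hH⟩ : ∃ H : ℝ, H = Real.log (R7.size P) := ⟨_, rfl⟩
    obtain ⟨H', hH'⟩ : ∃ H' : ℝ, H' = Real.log (R7.size P') := ⟨_, rfl⟩
    have hsz : (1 : ℝ) ≤ (R7.size P : ℝ) := by exact_mod_cast one_le_sz P
    have hsz' : (1 : ℝ) ≤ (R7.size P' : ℝ) := by exact_mod_cast one_le_sz P'
    have hH0 : 0 ≤ H := by
      rw [hH]
      exact Real.log_nonneg hsz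
    have hH'0 : 0 ≤ H' := by
      rw [hH']
      exact Real.log_nonneg hsz'
    have hHH : H ≤ μ * Real.log D + H' := by
      have h1 : (R7.size P : ℝ) ≤ (D : ℝ) ^ (2 * m - 1) * R7.size P' := by exact_mod_cast hs1
      have h2 := Real.log_le_log (by linarith) h1
      rw [Real.log_mul (by positivity) (by positivity), Real.log_pow, ← hμ, ← hH, ← hH'] at h2
      exact h2
    have hHH' : H' ≤ μ * Real.log D + H := by
      have h1 : (R7.size P' : ℝ) ≤ (D : ℝ) ^ (2 * m - 1) * R7.size P := by exact_mod_cast hs2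
      have h2 := Real.log_le_log (by linarith) h1
      rw [Real.log_mul (by positivity) (by positivity), Real.log_pow, ← hμ, ← hH, ← hH'] at h2
      exact h2
    have hlDM : Real.log D ≤ Real.log M := Real.log_le_log hDR hDM
    rw [← hH] at hlM
    obtain ⟨hn1, hn2⟩ := numeric hμ1 hδ00 hδ1 hδ2 hβ0 hH0 hH'0 hlDM hlM hHH
    -- the short sum
    have hshort : R7.IsShortSum S' (Fintype.card (Ix n × Fin (q * k))) (Real.exp (1 + 2 * (μ * β))) δ0
        P' := by
      refine short_of_sp S' (q * k) Γ' hΓS P' (fun s => D * P s) (fun s => ((D ^ ex m n s : ℕ) : ℤ))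
        M (M ^ (2 * m - 2)) _ _ hM0'.le hsp hPP (fun s => ?_) ?_
      · push_cast
        rw [abs_of_nonneg (by positivity)]
        calc (D : ℝ) ^ ex m n s ≤ (D : ℝ) ^ (2 * m - 2) := pow_le_pow_right₀ hD1 (ex_le m n s)
          _ ≤ M ^ (2 * m - 2) := pow_le_pow_left₀ hDR.le hDM _
      · have h1 : M ^ (2 * m - 2) * M = M ^ (2 * m - 1) := by
          rw [← pow_succ]
          congr 1
          omega
        have h2 : (R7.size P' : ℝ) ^ δ0 = Real.exp (δ0 * H') := by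
          rw [hH', Real.rpow_def_of_pos (by linarith), mul_comm]
        rw [h1, h2, ← Real.exp_add]
        rw [← Real.log_le_iff_le_exp (by positivity), Real.log_pow, ← hμ]
        linarith
    -- the relation
    have ha0' : ∀ i, a' i ≠ 0 := fun i => by
      rw [ha']
      exact mul_ne_zero hDK (mul_ne_zero hDK (ha i))
    have hsum' : a' 0 + a' 1 + a' 2 = 0 := by
      rw [ha']
      have h1 : (D : K) * ((D : K) * a 0) + (D : K) * ((D : K) * a 1) + (D : K) * ((D : K) * a 2) =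
        (D : K) * (D : K) * (a 0 + a 1 + a 2) := by ring
      change (D : K) * ((D : K) * a 0) + (D : K) * ((D : K) * a 1) +
        (D : K) * ((D : K) * a 2) = 0
      rw [h1, hsum, mul_zero]
    have hρ0' : ρ' ≠ 0 := by
      rw [hρ']
      exact mul_ne_zero hDK (mul_ne_zero hDK hρ)
    have hrel' : ∀ i j, ρ' ^ m * a' j = a' i * t' i j := by
      intro i j
      rw [hρ', ha', ht']
      change ((D : K) * ((D : K) * ρ)) ^ m * ((D : K) * ((D : K) * a j)) =
        (D : K) * ((D : K) * a i) * ((D : K) * (((D ^ (2 * m - 1) : ℕ) : K) * t i j))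
      have h1 : (((D ^ (2 * m - 1) : ℕ) : K)) * D = (D : K) ^ (2 * m) := by
        push_cast
        rw [← pow_succ]
        congr 1
        omega
      have h2 : ((D : K) * ((D : K) * ρ)) ^ m = (D : K) ^ (2 * m) * ρ ^ m := by
        rw [← mul_assoc, mul_pow, ← pow_two, ← pow_mul]
      rw [h2, ← h1]
      linear_combination (((D ^ (2 * m - 1) : ℕ) : K)) * D * (D * D) * ht i j
    have hheight : R7.height a' = R7.height a := by
      unfold R7.height
      have h1 : a' = ((D : K) * (D : K)) • a := by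
        rw [ha']
        funext i
        rw [Pi.smul_apply, smul_eq_mul]
        ring
      rw [h1, Height.logHeight_smul_eq_logHeight _ (mul_ne_zero hDK hDK)]
    have hh0 : 0 ≤ R7.height a := div_nonneg (Height.logHeight_nonneg _) (Nat.cast_nonneg _)
    rw [← hH] at hlog
    have hHA : H ≤ |A| * (R7.height a + 1) :=
      hlog.trans (mul_le_mul_of_nonneg_right (le_abs_self A) (by linarith))
    obtain ⟨h1, -⟩ := hcore n le_rfl K ω' a' t' ρ' ha0' hsum' hρ0' hrel' (by rw [← hP']; exact hshort)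
      (by
        rw [← hP', ← hH', hheight]
        have h2 : 0 ≤ μ * β := by positivity
        have h3 : (μ * β + 1) * 1 ≤ (μ * β + 1) * (R7.height a + 1) :=
          mul_le_mul_of_nonneg_left (by linarith) (by linarith)
        nlinarith)
    rw [hheight] at h1
    -- comparison with the given data
    have hpl : ∀ v : FinitePlace K, v ∉ Over K S → v ρ ≤ 1 := by
      intro v hv
      refine elem_place_le ω v ρ (fun i => basis_place_le ω v (fun i j h => ?_) i) fun i => ?_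
      · have h2 := hint (Sum.inl (i, j, h))
        rw [← hP] at h2
        exact h2.place v hv
      · have h2 := hint (Sum.inr (Sum.inr (Sum.inr ()), i))
        rw [← hP] at h2
        exact h2.place v hv
    have h2 : R7.counting S' ρ' ≤ R7.counting S ρ + 2 * Real.log D := by
      rw [hρ']
      have h3 := counting_natMul S' D hD0 ((D : K) * ρ) (mul_ne_zero hDK hρ)
      have h4 := counting_natMul S' D hD0 ρ hρ
      have h5 := counting_mono hSS ρ hρ hpl
      linarith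
    have h3 : R7.logDiscBasis S' ω' ≤ R7.logDiscBasis S ω + 2 * Real.log D := by
      rw [hω']
      have h4 := logDiscBasis_scale S' hS' ω D hD0
      have h5 := logDiscBasis_mono hSS hS' ω fun i j l p hp hpS => by
        have h6 := hint (Sum.inl (i, j, l))
        rw [← hP] at h6
        exact h6.padic hS p hp hpS
      linarith
    obtain ⟨Z, hZ⟩ : ∃ Z : ℝ, Z = R7.counting S ρ + R7.logDiscBasis S ω := ⟨_, rfl⟩
    have h4 : R7.height a ≤ (1 + ε / 2) * (Z + 4 * Real.log D) + C0 := by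
      refine h1.trans ?_
      have : (1 + ε / 2) * (R7.counting S' ρ' + R7.logDiscBasis S' ω') ≤
          (1 + ε / 2) * (Z + 4 * Real.log D) := by
        refine mul_le_mul_of_nonneg_left ?_ (by positivity)
        rw [hZ]
        linarith
      linarith
    have h5 : Real.log D ≤ δ * ((1 + |A|) * (R7.height a + 1)) + β := by
      have h6 : δ * (1 + H) ≤ δ * ((1 + |A|) * (R7.height a + 1)) := by
        refine mul_le_mul_of_nonneg_left ?_ hδ00.le
        nlinarith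
      linarith
    have h6 : (1 + ε / 2) * (4 * Real.log D) ≤ η * (R7.height a + 1) + 4 * (1 + ε / 2) * β := by
      have h7 := mul_le_mul_of_nonneg_left h5 (by positivity : (0 : ℝ) ≤ (1 + ε / 2) * 4)
      have h8 : 4 * (1 + ε / 2) * (1 + |A|) * δ * (R7.height a + 1) ≤ η * (R7.height a + 1) :=
        mul_le_mul_of_nonneg_right hδ3 (by linarith)
      nlinarith
    have h7 : (1 - η) * R7.height a ≤ (1 + ε / 2) * Z + (η + 4 * (1 + ε / 2) * β + C0) := by
      nlinarith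
    have h8 : (1 - η) * ((1 + ε) / (1 + ε / 2)) = 1 := by
      rw [hη]
      field_simp
      ring
    have h9 : 0 ≤ (1 + ε) / (1 + ε / 2) := by positivity
    have h10 := mul_le_mul_of_nonneg_right h7 h9
    have h11 : (1 + ε / 2) * ((1 + ε) / (1 + ε / 2)) = 1 + ε := by field_simp
    rw [← hZ]
    refine le_trans ?_ (add_le_add le_rfl (le_max_right (2 / δ) _))
    calc R7.height a = (1 - η) * ((1 + ε) / (1 + ε / 2)) * R7.height a := by rw [h8, one_mul]
      _ = (1 - η) * R7.height a * ((1 + ε) / (1 + ε / 2)) := by ring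
      _ ≤ _ := h10
      _ = (1 + ε / 2) * ((1 + ε) / (1 + ε / 2)) * Z +
          (η + 4 * (1 + ε / 2) * β + C0) * ((1 + ε) / (1 + ε / 2)) := by ring
      _ = _ := by rw [h11])
  exact ⟨C, fun K _ _ ω a t ρ w ha hsum hρ ht hint hdec hw hlog =>
    hC (R7.params ω (data3 a t ρ), w) (fun s => CompR.one (hw s)) trivial K ω a t ρ rfl ha hsum hρ
      ht hint hdec hlog⟩

end Pool.Agent.K3h2.LA
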