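import Mathlib
import Pool.Agent.K3h2.LA.Core

/-! # All fields of bounded degree, and the conductors -/

set_option autoImplicit false

namespace Pool.Agent.K3h2.LA

open NumberField Pool.Agent.Y724.T4 Pool.Agent.R343.LT

/-- the inequality for the triples with compressible coordinates and a compressible multiple of the
radical, in all number fields of degree at most `r` -/
theorem abk_lz (S : Finset ℕ) (hS : ∀ p ∈ S, p.Prime) (r m : ℕ) (hm : 1 ≤ m) (q : ℕ)
    (b : Fin q → ℕ) (hb : ∀ i, 2 ≤ b i) (z : ℕ) (B : ℤ) (hB : 0 ≤ B) (Γ : Subgroup ℚˣ)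
    (hΓ : Γ.FG) (A M0 N0 ε : ℝ) (hM0 : 0 ≤ M0) (hN0 : 0 ≤ N0) (hε : 0 < ε) :
    ∃ δ C : ℝ, 0 < δ ∧ ∀ (n : ℕ), n ≤ r → ∀ (K : Type) [Field K] [NumberField K]
      (ω : Module.Basis (Fin n) ℚ K) (a : Fin 3 → K) (t : Fin 3 → Fin 3 → K) (ρ : K)
      (w : Ix n × Fin q → ℤ),
      (∀ i, a i ≠ 0) → a 0 + a 1 + a 2 = 0 → ρ ≠ 0 → (∀ i j, ρ ^ m * a j = a i * t i j) →
      (∀ s, SInt S (R7.params ω (data3 a t ρ) s)) →
      (∀ s, Dec Γ (N0 * Real.exp (δ * Real.log (R7.size (R7.params ω (data3 a t ρ)))))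
        (fun i => w (s, i)) (R7.params ω (data3 a t ρ) s)) →
      (∀ s, LZWd (b s.2) z B (M0 * (1 + Real.log (R7.size (R7.params ω (data3 a t ρ))))) (w s)) →
      Real.log (R7.size (R7.params ω (data3 a t ρ))) ≤ A * (R7.height a + 1) →
      R7.height a ≤ (1 + ε) * (R7.counting S ρ + R7.logDiscBasis S ω) + C ∧
      (R7.SpansIntegers S ω → R7.IsRadical lineF (fun _ _ => 1) S a ρ →
        R7.height a ≤ (1 + ε) * (R7.truncated lineF (fun _ _ => 1) S a + R7.logDisc K) + C) := by
  classical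
  choose C hC using fun n => core_n S hS n m hm q b hb z B hB Γ hΓ A M0 N0 ε hM0 hε
  have hM1 : (1 : ℝ) ≤ max (∑ n ∈ Finset.range (r + 1), |C n|) 1 := le_max_right _ _
  refine ⟨1 / max (∑ n ∈ Finset.range (r + 1), |C n|) 1, ∑ n ∈ Finset.range (r + 1), |C n|,
    by positivity, ?_⟩
  intro n hn K _ _ ω a t ρ w ha hsum hρ ht hint hdec hlz hlog
  have hCn : C n ≤ ∑ n ∈ Finset.range (r + 1), |C n| :=
    (le_abs_self _).trans (Finset.single_le_sum (f := fun n => |C n|)
      (fun n _ => abs_nonneg _) (Finset.mem_range.2 (by omega)))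
  have h1 := hC n K ω a t ρ w ha hsum hρ ht hint (fun s => by
    obtain ⟨g, c, hg, hc, hy⟩ := hdec s
    refine ⟨g, c, hg, fun i => (hc i).trans ?_, hy⟩
    refine mul_le_mul_of_nonneg_left (Real.exp_le_exp.2 ?_) hN0
    rw [one_div_mul_eq_div]
    exact div_le_div_of_nonneg_left (Real.log_natCast_nonneg _)
      (lt_of_lt_of_le one_pos (le_max_right _ _)) (max_le_max hCn le_rfl)) hlz hlog
  have h2 : R7.height a ≤ (1 + ε) * (R7.counting S ρ + R7.logDiscBasis S ω) +
      ∑ n ∈ Finset.range (r + 1), |C n| := by linarith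
  refine ⟨h2, fun hspan hrad => h2.trans ?_⟩
  have h5 : R7.logDiscBasis S ω ≤ R7.logDisc K := by
    unfold R7.logDiscBasis R7.logDisc
    refine div_le_div_of_nonneg_right ?_ (by positivity)
    refine max2 K S hS n ω fun y i p hp hpS => ?_
    have : Fact p.Prime := ⟨hp⟩
    by_contra hcon
    push Not at hcon
    apply hpS
    refine hspan y i p hp ?_
    by_contra hdv
    have h6 : ¬ 1 < padicNorm p (ω.repr (y : K) i) := by
      rw [not_lt]
      have h7 := Padic.norm_rat_le_one (p := p) hdv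
      rw [Padic.eq_padicNorm] at h7
      exact_mod_cast h7
    exact h6 hcon
  have hpl : ∀ v : FinitePlace K, v ∉ Over K S → v ρ ≤ 1 := by
    intro v hv
    refine elem_place_le ω v ρ (fun i => basis_place_le ω v (fun i j h => ?_) i) fun i => ?_
    · exact (hint (Sum.inl (i, j, h))).place v hv
    · exact (hint (Sum.inr (Sum.inr (Sum.inr ()), i))).place v hv
  have h8 : R7.counting S ρ ≤ R7.truncated lineF (fun _ _ => 1) S a := by
    unfold R7.counting R7.truncated
    refine div_le_div_of_nonneg_right ?_ (by positivity)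
    refine trunc_le S ρ hρ hpl
      (fun v => ∃ i, 0 < R7.localHeight (lineF i) (fun _ => 1) a v.1) ?_
      (fun v hv h => hrad v hv h)
    have hfin : {v : FinitePlace K | ∃ i j : Fin (1 + 1 + 1), v (a i) ≠ v (a j)}.Finite := by
      refine (Set.finite_iUnion fun i => fin_ne_one (ha i)).subset ?_
      rintro v ⟨i, j, hij⟩
      rw [Set.mem_iUnion]
      by_contra hcon
      push Not at hcon
      have h1 : ∀ i, v (a i) = 1 := fun i => by
        by_contra h
        exact hcon i h
      exact hij ((h1 i).trans (h1 j).symm)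
    exact hfin.subset fun v hv => (line_meets a ha v).1 hv.2
  have h9 : (1 + ε) * (R7.counting S ρ + R7.logDiscBasis S ω) ≤
      (1 + ε) * (R7.truncated lineF (fun _ _ => 1) S a + R7.logDisc K) :=
    mul_le_mul_of_nonneg_left (by linarith) (by positivity)
  linarith

end Pool.Agent.K3h2.LA
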